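import Mathlib

set_option autoImplicit false
set_option linter.unusedSectionVars false

/-! # Nil algebras of matrices in characteristic zero -/

namespace Pool.Agent.Helper74.NA
open Matrix Finset Polynomial

variable {K : Type} [Field K] {D : ℕ}

theorem trace_aeval_mul_X (M : Matrix (Fin D) (Fin D) K) (h : ∀ k, 0 < k → (M ^ k).trace = 0)
    (P : K[X]) : (aeval M (P * X)).trace = 0 := by
  induction P using Polynomial.induction_on' with
  | add p q hp hq => rw [add_mul, map_add, Matrix.trace_add, hp, hq, add_zero]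
  | monomial n a =>
    rw [← Polynomial.C_mul_X_pow_eq_monomial, mul_assoc, ← pow_succ, map_mul, aeval_C, map_pow,
      aeval_X, ← Algebra.smul_def, Matrix.trace_smul, h _ (Nat.succ_pos n), smul_zero]

theorem isNilpotent_of_trace [CharZero K] (M : Matrix (Fin D) (Fin D) K)
    (h : ∀ k, 0 < k → (M ^ k).trace = 0) : IsNilpotent M := by
  obtain ⟨q, hq, hnd⟩ := exists_eq_pow_rootMultiplicity_mul_and_not_dvd M.charpoly
    M.charpoly_monic.ne_zero 0
  set r := rootMultiplicity 0 M.charpoly with hr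
  rw [C_0, sub_zero] at hq hnd
  have hcop : IsCoprime (X ^ (r + 1)) q :=
    IsCoprime.pow_left ((Polynomial.irreducible_X (R := K)).coprime_iff_not_dvd.mpr hnd)
  obtain ⟨u, v, huv⟩ := hcop
  set E := aeval M (u * X ^ (r + 1)) with hE
  have h1E : 1 - E = aeval M (v * q) := by
    rw [hE, sub_eq_iff_eq_add, ← map_add, add_comm, huv, map_one]
  have hEE : E * (1 - E) = 0 := by
    rw [h1E, hE, ← map_mul]
    have : u * X ^ (r + 1) * (v * q) = u * v * X * M.charpoly := by
      conv_rhs => rw [hq]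
      ring
    rw [this, map_mul, Matrix.aeval_self_charpoly, mul_zero]
  have hidem : E * E = E := by
    rw [mul_sub, mul_one, sub_eq_zero] at hEE
    exact hEE.symm
  have htr : E.trace = 0 := by
    have : u * X ^ (r + 1) = u * X ^ r * X := by ring
    rw [hE, this]
    exact trace_aeval_mul_X M h _
  have hE0 : E = 0 := by
    have h1 : IsIdempotentElem (Matrix.toLin' E) := by
      show Matrix.toLin' E * Matrix.toLin' E = Matrix.toLin' E
      rw [Module.End.mul_eq_comp, ← Matrix.toLin'_mul, hidem]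
    have h2 : LinearMap.trace K (Fin D → K) (Matrix.toLin' E) = 0 := by
      rw [Matrix.trace_toLin'_eq]; exact htr
    have h3 := (LinearMap.IsIdempotentElem.trace_eq_zero_iff h1).mp h2
    exact (Matrix.toLin'.map_eq_zero_iff).mp h3
  rw [hE0, sub_zero] at h1E
  have h5 : X ^ r * (v * q) = v * M.charpoly := by
    conv_rhs => rw [hq]
    ring
  have h6 : aeval M (X ^ r * (v * q)) = M ^ r * aeval M (v * q) := by
    rw [map_mul (aeval M) (X ^ r), map_pow, aeval_X]
  have h7 : aeval M (v * M.charpoly) = 0 := by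
    rw [map_mul, Matrix.aeval_self_charpoly, mul_zero]
  rw [h5, h7, ← h1E, mul_one] at h6
  exact ⟨r, h6.symm⟩

/-- span of `h - 1` -/
def Lsp (H : Set (Matrix (Fin D) (Fin D) K)) : Submodule K (Matrix (Fin D) (Fin D) K) :=
  Submodule.span K {M | ∃ h ∈ H, M = h - 1}

theorem Lsp_mul {H : Set (Matrix (Fin D) (Fin D) K)} (hH : ∀ a ∈ H, ∀ b ∈ H, a * b ∈ H)
    {a b : Matrix (Fin D) (Fin D) K} (ha : a ∈ Lsp H) (hb : b ∈ Lsp H) : a * b ∈ Lsp H := by
  induction ha using Submodule.span_induction with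
  | mem a ha =>
    obtain ⟨h, hh, rfl⟩ := ha
    induction hb using Submodule.span_induction with
    | mem b hb =>
      obtain ⟨k, hk, rfl⟩ := hb
      have : (h - 1) * (k - 1) = (h * k - 1) - (h - 1) - (k - 1) := by noncomm_ring
      rw [this]
      exact (Lsp H).sub_mem ((Lsp H).sub_mem (Submodule.subset_span ⟨_, hH h hh k hk, rfl⟩)
        (Submodule.subset_span ⟨_, hh, rfl⟩)) (Submodule.subset_span ⟨_, hk, rfl⟩)
    | zero => rw [mul_zero]; exact (Lsp H).zero_mem
    | add x y _ _ hx hy => rw [mul_add]; exact (Lsp H).add_mem hx hy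
    | smul c x _ hx => rw [Matrix.mul_smul]; exact (Lsp H).smul_mem c hx
  | zero => rw [zero_mul]; exact (Lsp H).zero_mem
  | add x y _ _ hx hy => rw [add_mul]; exact (Lsp H).add_mem hx hy
  | smul c x _ hx => rw [Matrix.smul_mul]; exact (Lsp H).smul_mem c hx

theorem Lsp_trace {H : Set (Matrix (Fin D) (Fin D) K)} (hn : ∀ h ∈ H, IsNilpotent (h - 1))
    {a : Matrix (Fin D) (Fin D) K} (ha : a ∈ Lsp H) : a.trace = 0 := by
  induction ha using Submodule.span_induction with
  | mem a ha =>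
    obtain ⟨h, hh, rfl⟩ := ha
    exact (Matrix.isNilpotent_trace_of_isNilpotent (hn h hh)).eq_zero
  | zero => simp
  | add x y _ _ hx hy => rw [Matrix.trace_add, hx, hy, add_zero]
  | smul c x _ hx => rw [Matrix.trace_smul, hx, smul_zero]

theorem Lsp_nil [CharZero K] {H : Set (Matrix (Fin D) (Fin D) K)}
    (hH : ∀ a ∈ H, ∀ b ∈ H, a * b ∈ H) (hn : ∀ h ∈ H, IsNilpotent (h - 1))
    {a : Matrix (Fin D) (Fin D) K} (ha : a ∈ Lsp H) : IsNilpotent a := by
  refine isNilpotent_of_trace a fun k hk => ?_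
  obtain ⟨n, rfl⟩ : ∃ n, k = n + 1 := ⟨k - 1, by omega⟩
  have : a ^ (n + 1) ∈ Lsp H := by
    clear hk
    induction n with
    | zero => simpa using ha
    | succ n ih => rw [pow_succ]; exact Lsp_mul hH ih ha
  exact Lsp_trace hn this

/-- the ascending series of a space of matrices -/
def Zs (L : Submodule K (Matrix (Fin D) (Fin D) K)) : ℕ → Submodule K (Fin D → K)
  | 0 => ⊥
  | j + 1 =>
    { carrier := {v | ∀ a ∈ L, a *ᵥ v ∈ Zs L j}
      add_mem' := fun {v w} hv hw a ha => by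
        rw [Matrix.mulVec_add]; exact (Zs L j).add_mem (hv a ha) (hw a ha)
      zero_mem' := fun a _ => by rw [Matrix.mulVec_zero]; exact (Zs L j).zero_mem
      smul_mem' := fun c v hv a ha => by
        rw [Matrix.mulVec_smul]; exact (Zs L j).smul_mem c (hv a ha) }

theorem mem_Zs_succ (L : Submodule K (Matrix (Fin D) (Fin D) K)) (j : ℕ) (v : Fin D → K) :
    v ∈ Zs L (j + 1) ↔ ∀ a ∈ L, a *ᵥ v ∈ Zs L j := Iff.rfl

theorem Zs_le_succ (L : Submodule K (Matrix (Fin D) (Fin D) K)) (j : ℕ) : Zs L j ≤ Zs L (j + 1) := by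
  induction j with
  | zero => exact bot_le
  | succ j ih =>
    intro v hv a ha
    exact ih (hv a ha)

theorem Zs_lt_succ (L : Submodule K (Matrix (Fin D) (Fin D) K))
    (hmul : ∀ a ∈ L, ∀ b ∈ L, a * b ∈ L) (hnil : ∀ a ∈ L, IsNilpotent a) (j : ℕ)
    (hj : Zs L j ≠ ⊤) : Zs L j < Zs L (j + 1) := by
  classical
  set U := Zs L j with hU
  have hinv : ∀ a ∈ L, ∀ v ∈ U, a *ᵥ v ∈ U := fun a ha v hv => Zs_le_succ L j hv a ha
  refine lt_of_le_of_ne (Zs_le_succ L j) fun heq => ?_
  obtain ⟨v0, hv0⟩ : ∃ v, v ∉ U := by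
    by_contra hne
    push Not at hne
    exact hj (eq_top_iff.mpr fun v _ => hne v)
  set ev : (Fin D → K) → (Matrix (Fin D) (Fin D) K →ₗ[K] (Fin D → K)) := fun v =>
    { toFun := fun a => a *ᵥ v
      map_add' := fun a b => Matrix.add_mulVec a b v
      map_smul' := fun c a => Matrix.smul_mulVec c a v } with hev
  set f : (Fin D → K) → ℕ := fun v => Module.finrank K ↥((L.map (ev v)) ⊔ U) with hf
  have hex : ∃ n, ∃ v, v ∉ U ∧ f v = n := ⟨_, v0, hv0, rfl⟩
  obtain ⟨v, hv, hfv⟩ := Nat.find_spec hex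
  have hmin : ∀ w, w ∉ U → f v ≤ f w := by
    intro w hw
    rw [hfv]
    exact Nat.find_min' hex ⟨w, hw, rfl⟩
  -- `v` is in the next step
  have hv1 : v ∈ Zs L (j + 1) := by
    intro a ha
    by_contra hav
    have hle : (L.map (ev (a *ᵥ v))) ⊔ U ≤ (L.map (ev v)) ⊔ U := by
      refine sup_le_sup_right ?_ U
      rintro _ ⟨b, hb, rfl⟩
      refine ⟨b * a, hmul b hb a ha, ?_⟩
      show (b * a) *ᵥ v = b *ᵥ (a *ᵥ v)
      rw [Matrix.mulVec_mulVec]
    have heq2 := Submodule.eq_of_le_of_finrank_le hle (hmin _ hav)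
    have hmem : a *ᵥ v ∈ (L.map (ev (a *ᵥ v))) ⊔ U := by
      rw [heq2]
      exact Submodule.mem_sup_left ⟨a, ha, rfl⟩
    obtain ⟨y, ⟨b, hb, rfl⟩, u, hu, hsum⟩ := Submodule.mem_sup.mp hmem
    set w := a *ᵥ v with hw
    have hsum' : b *ᵥ w + u = w := hsum
    have h1 : ∀ k : ℕ, w - (b ^ k) *ᵥ w ∈ U := by
      intro k
      induction k with
      | zero => simp
      | succ k ih =>
        have h2 : w - (b ^ (k + 1)) *ᵥ w = u + b *ᵥ (w - (b ^ k) *ᵥ w) := by
          rw [Matrix.mulVec_sub, Matrix.mulVec_mulVec w b (b ^ k), ← pow_succ', ← add_sub_assoc,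
            add_comm u, hsum']
        rw [h2]
        exact U.add_mem hu (hinv b hb _ ih)
    obtain ⟨n, hn⟩ := hnil b hb
    have h3 := h1 n
    rw [hn, Matrix.zero_mulVec, sub_zero] at h3
    exact hav h3
  rw [← heq] at hv1
  exact hv hv1

theorem exists_Zs_top (L : Submodule K (Matrix (Fin D) (Fin D) K))
    (hmul : ∀ a ∈ L, ∀ b ∈ L, a * b ∈ L) (hnil : ∀ a ∈ L, IsNilpotent a) :
    ∃ n, Zs L n = ⊤ := by
  by_contra hne
  push Not at hne
  have h1 : ∀ n, n ≤ Module.finrank K ↥(Zs L n) := by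
    intro n
    induction n with
    | zero => exact Nat.zero_le _
    | succ n ih =>
      have h2 := Submodule.finrank_lt_finrank_of_lt (Zs_lt_succ L hmul hnil n (hne n))
      omega
  have h2 := h1 (D + 1)
  have h3 := Submodule.finrank_le (Zs L (D + 1))
  rw [Module.finrank_fin_fun] at h3
  omega

end Pool.Agent.Helper74.NA
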